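import Pool.Agent.H672R2.EM_MF1
import Pool.Agent.H56R2.EM_MF2
import Pool.Agent.H223.TM.Defs

set_option autoImplicit false

/-!
Twelfth moment lower bound, F1 and F2: assembly.
-/

namespace Pool.Agent.H223R2.TMF

open Finset Filter Topology MeasureTheory Complex
open Pool.Agent.H306R2 Pool.Agent.H223.EM Pool.Agent.H223.TM Pool.Agent.H672R2.EM_MF1
open Pool.Agent.H306R2.SM (om Xf cl ef Yf)

noncomputable section

lemma PG_Pp (ε T : ℝ) : PG (Pp ε T) :=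
  PG.sum _ fun _ _ => (PG.const _).mul (PG.ef _)

/-- the integral splits into the two cross terms -/
lemma split_int6 (ε T : ℝ) (k : ℕ) {δ : ℝ} (hδ : 0 < δ) :
    ∫ t in Set.Ioi (0 : ℝ), (om k δ t : ℂ) * riemannZeta (cl t) ^ 2 * Pp ε T t ^ 2 * Bd ε T t =
      (∫ t in Set.Ioi (0 : ℝ), (om k δ t : ℂ) * (riemannZeta (cl t) ^ 2 * Xf (cl t)) *
        Pp ε T t ^ 2 * Cp (SS' ε T) (cA ε T) t) +
      ∫ t in Set.Ioi (0 : ℝ), (om k δ t : ℂ) * (riemannZeta (cl t) ^ 2 * Xf (cl t) ^ 2) *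
        Pp ε T t ^ 2 * Cp (SS' ε T) (cB ε T) t := by
  have i1 : IntegrableOn (fun t : ℝ => (om k δ t : ℂ) * (riemannZeta (cl t) ^ 2 * Xf (cl t)) *
        Pp ε T t ^ 2 * Cp (SS' ε T) (cA ε T) t) (Set.Ioi 0) := by
    refine ((((PG.zeta.pow 2).mul PG.X).mul ((PG_Pp ε T).pow 2)).mul
      (PG_Cp (SS' ε T) (cA ε T))).int k hδ |>.congr (Eventually.of_forall fun t => ?_)
    simp only
    ring
  have i2 : IntegrableOn (fun t : ℝ => (om k δ t : ℂ) * (riemannZeta (cl t) ^ 2 * Xf (cl t) ^ 2) *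
        Pp ε T t ^ 2 * Cp (SS' ε T) (cB ε T) t) (Set.Ioi 0) := by
    refine ((((PG.zeta.pow 2).mul (PG.X.pow 2)).mul ((PG_Pp ε T).pow 2)).mul
      (PG_Cp (SS' ε T) (cB ε T))).int k hδ |>.congr (Eventually.of_forall fun t => ?_)
    simp only
    ring
  rw [← integral_add i1 i2]
  refine integral_congr_ae (Eventually.of_forall fun t => ?_)
  simp only [Bd]
  ring

/-- F1, from the inputs -/
theorem main_lower6_of
    (hTW : ∀ (ε : ℝ), 0 < ε → ε < 1 / 16 → ∃ e : ℝ, 0 < e ∧ ∀ᶠ T : ℝ in atTop,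
      ∀ k : ℕ, kr' T k → ∀ S : Finset (ℕ × ℕ), (∀ b ∈ S, Adm ε T b) → ∀ c : ℕ × ℕ → ℝ,
      ‖(∫ t in Set.Ioi (0 : ℝ), (om k (k / T) t : ℂ) * (riemannZeta (cl t) ^ 2 * Xf (cl t)) *
          Pp ε T t ^ 2 * Cp S c t) -
        ((∑ b ∈ S, c b * ∑ n1 ∈ Icc 1 (N4 ε T), ∑ n2 ∈ Icc 1 (N4 ε T),
          ap ε T n1 * ap ε T n2 / Real.sqrt ((n1 : ℝ) * n2) * Mt k (Yf k T) b.1 b.2 (n1 * n2) : ℝ) : ℂ)‖ ≤
      T ^ (-e) * (1 + M12 k T) * (1 + ∑ b ∈ S, c b ^ 2))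
    (hS1 : ∀ (ε : ℝ), 0 < ε → ε < 1 / 16 →
      Tendsto (fun T : ℝ => (∑ b ∈ SS' ε T, cA ε T b ^ 2) / Real.log T ^ 36) atTop
        (𝓝 (aF 6 * JAn ε)))
    (hS2 : ∀ (ε : ℝ), 0 < ε → ε < 1 / 16 →
      Tendsto (fun T : ℝ => (∑ b ∈ SS' ε T, cB ε T b ^ 2) / Real.log T ^ 36) atTop
        (𝓝 (aF 6 * JBn ε)))
    (hS3 : ∀ (ε : ℝ), 0 < ε → ε < 1 / 16 → ∀ (c : ℝ), c < aF 6 * JAc ε →
      ∀ᶠ T : ℝ in atTop, ∀ k : ℕ, kr' T k → c * Real.log T ^ 36 ≤
        ∑ b ∈ SS' ε T, cA ε T b * ∑ n1 ∈ Icc 1 (N4 ε T), ∑ n2 ∈ Icc 1 (N4 ε T),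
          ap ε T n1 * ap ε T n2 / Real.sqrt ((n1 : ℝ) * n2) * Mt k (Yf k T) b.1 b.2 (n1 * n2))
    (hS4 : ∀ (ε : ℝ), 0 < ε → ε < 1 / 16 →
      Tendsto (fun T : ℝ => (∑ b ∈ SS' ε T, cB ε T b * ∑ n1 ∈ Icc 1 (N4 ε T), ∑ n2 ∈ Icc 1 (N4 ε T),
          if b.1 ∣ n1 * n2 then ap ε T n1 * ap ε T n2 * d2 (b.2 * (n1 * n2 / b.1)) /
            Real.sqrt ((n1 : ℝ) * n2 * (b.2 * (n1 * n2 / b.1) : ℕ)) else 0) / Real.log T ^ 36) atTop
        (𝓝 (aF 6 * JBc ε)))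
    (hS5 : ∀ (ε : ℝ), 0 < ε → ε < 1 / 16 → ∀ (c : ℝ), aF 6 * JP ε < c →
      ∀ᶠ T : ℝ in atTop, ∀ k : ℕ, kr' T k →
        ∫ t in Set.Ioi (0 : ℝ), om k (k / T) t * ‖Pp ε T t‖ ^ 6 ≤ c * Real.log T ^ 36)
    (hB2 : ∀ (ε : ℝ), 0 < ε → ε < 1 / 16 → ∀ᶠ T : ℝ in atTop, ∀ k : ℕ, kr' T k →
      ‖(∫ t in Set.Ioi (0 : ℝ), (om k (k / T) t : ℂ) * (riemannZeta (cl t) ^ 2 * Xf (cl t) ^ 2) *
          Pp ε T t ^ 2 * Cp (SS' ε T) (cB ε T) t) -
        ((∑ b ∈ SS' ε T, cB ε T b * ∑ n1 ∈ Icc 1 (N4 ε T), ∑ n2 ∈ Icc 1 (N4 ε T),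
          if b.1 ∣ n1 * n2 then ap ε T n1 * ap ε T n2 * d2 (b.2 * (n1 * n2 / b.1)) /
            Real.sqrt ((n1 : ℝ) * n2 * (b.2 * (n1 * n2 / b.1) : ℕ)) else 0 : ℝ) : ℂ)‖ ≤ 1)
    (hB3 : ∀ (ε : ℝ), 0 < ε → ε < 1 / 16 → ∀ᶠ T : ℝ in atTop, ∀ k : ℕ, kr' T k →
      ∫ t in Set.Ioi (0 : ℝ), om k (k / T) t * ‖Bd ε T t‖ ^ 2 ≤
        (∑ b ∈ SS' ε T, cA ε T b ^ 2) + (∑ b ∈ SS' ε T, cB ε T b ^ 2) + 1)
    (hH : ∀ (ε : ℝ) (T : ℝ), 1 < T → ∀ (k : ℕ), 1 ≤ k →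
      ‖∫ t in Set.Ioi (0 : ℝ), (om k (k / T) t : ℂ) * riemannZeta (cl t) ^ 2 * Pp ε T t ^ 2 *
          Bd ε T t‖ ^ 6 ≤
        M12 k T * (∫ t in Set.Ioi (0 : ℝ), om k (k / T) t * ‖Pp ε T t‖ ^ 6) ^ 2 *
          (∫ t in Set.Ioi (0 : ℝ), om k (k / T) t * ‖Bd ε T t‖ ^ 2) ^ 3)
    (ε : ℝ) (hε : 0 < ε) (hε1 : ε < 1 / 16) (w1c w2c w1n w2n n4 : ℝ)
    (h1 : 0 ≤ w1c + w2c) (hw1c : w1c < aF 6 * JAc ε) (hw2c : w2c < aF 6 * JBc ε)
    (hw1n : aF 6 * JAn ε < w1n) (hw2n : aF 6 * JBn ε < w2n) (hn : aF 6 * JP ε < n4) :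
    ∀ᶠ T : ℝ in atTop, ∀ k : ℕ, kr' T k →
      (w1c + w2c) ^ 6 / (n4 ^ 2 * (w1n + w2n) ^ 3) * Real.log T ^ 36 ≤ M12 k T := by
  obtain ⟨e, he, hTW'⟩ := hTW ε hε hε1
  obtain ⟨u1, hu1, hu1'⟩ := exists_between hw1c
  obtain ⟨v1, hv1, hv1'⟩ := exists_between hw1n
  set K := (w1c + w2c) ^ 6 / (n4 ^ 2 * (w1n + w2n) ^ 3) with hK
  have q1 := (hS1 ε hε hε1).eventually_lt_const hv1
  have q2 := (hS2 ε hε hε1).eventually_lt_const hw2n
  have q3 := hS3 ε hε hε1 u1 hu1'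
  have q4 := (hS4 ε hε hε1).eventually_const_lt hw2c
  have q5 := hS5 ε hε hε1 n4 hn
  have q6 := hB2 ε hε hε1
  have q7 := hB3 ε hε hε1
  have q8 := polylog_small (2 * (1 + |v1|)) (e / 2) (by positivity) 36
  have q9 := polylog_small |K| (e / 2) (by positivity) 36
  have q10 : ∀ᶠ T : ℝ in atTop, 1 / (w1n - v1) ≤ Real.log T :=
    Real.tendsto_log_atTop.eventually_ge_atTop _
  have q11 : ∀ᶠ T : ℝ in atTop, 2 / (u1 - w1c) ≤ Real.log T :=
    Real.tendsto_log_atTop.eventually_ge_atTop _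
  filter_upwards [hTW', q1, q2, q3, q4, q5, q6, q7, q8, q9, q10, q11,
    eventually_gt_atTop (Real.exp 1)] with T hTW' q1 q2 q3 q4 q5 q6 q7 q8 q9 q10 q11 hTe k hk
  obtain ⟨hk1, hδ⟩ := kr_pos hTe hk
  have hT0 : 0 < T := lt_trans (Real.exp_pos 1) hTe
  have hT1 : 1 < T := lt_of_le_of_lt (Real.one_le_exp zero_le_one) hTe
  have hL1 : 1 < Real.log T := by
    rw [Real.lt_log_iff_exp_lt hT0]; exact hTe
  set L := Real.log T with hLdef
  have hL0 : 0 < L := by linarith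
  have hL36 : 0 < L ^ 36 := by positivity
  have hLL : L ≤ L ^ 36 := le_self_pow₀ hL1.le (by norm_num)
  have hM0 : 0 ≤ M12 k T := by
    unfold M12
    refine setIntegral_nonneg measurableSet_Ioi fun t ht => ?_
    exact mul_nonneg (om_nonneg k hδ (le_of_lt ht)) (by positivity)
  by_cases hbig : T ^ (e / 2) ≤ M12 k T
  · -- the moment is huge
    refine le_trans ?_ hbig
    refine le_trans ?_ q9
    calc K * L ^ 36 ≤ |K| * L ^ 36 := mul_le_mul_of_nonneg_right (le_abs_self K) hL36.le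
      _ ≤ |K| * (1 + L) ^ 36 := by
          refine mul_le_mul_of_nonneg_left ?_ (abs_nonneg _)
          exact pow_le_pow_left₀ hL0.le (by linarith) _
  · push Not at hbig
    have q3 := q3 k hk
    have q5 := q5 k hk
    have q6 := q6 k hk
    have q7 := q7 k hk
    have hcr := hTW' k hk (SS' ε T) (SS_adm hT0) (cA ε T)
    set S1 := ∑ b ∈ SS' ε T, cA ε T b ^ 2 with hS1def
    set S2 := ∑ b ∈ SS' ε T, cB ε T b ^ 2 with hS2def
    have hS1n : 0 ≤ S1 := sum_nonneg fun b _ => sq_nonneg _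
    have hS2n : 0 ≤ S2 := sum_nonneg fun b _ => sq_nonneg _
    rw [div_lt_iff₀ hL36] at q1 q2
    rw [lt_div_iff₀ hL36] at q4
    set S3 := ∑ b ∈ SS' ε T, cA ε T b * ∑ n1 ∈ Icc 1 (N4 ε T), ∑ n2 ∈ Icc 1 (N4 ε T),
        ap ε T n1 * ap ε T n2 / Real.sqrt ((n1 : ℝ) * n2) * Mt k (Yf k T) b.1 b.2 (n1 * n2)
      with hS3def
    set S4 := ∑ b ∈ SS' ε T, cB ε T b * ∑ n1 ∈ Icc 1 (N4 ε T), ∑ n2 ∈ Icc 1 (N4 ε T),
        (if b.1 ∣ n1 * n2 then ap ε T n1 * ap ε T n2 * d2 (b.2 * (n1 * n2 / b.1)) /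
          Real.sqrt ((n1 : ℝ) * n2 * (b.2 * (n1 * n2 / b.1) : ℕ)) else 0) with hS4def
    set X1 := ∫ t in Set.Ioi (0 : ℝ), (om k (k / T) t : ℂ) * (riemannZeta (cl t) ^ 2 * Xf (cl t)) *
        Pp ε T t ^ 2 * Cp (SS' ε T) (cA ε T) t with hX1
    set X2 := ∫ t in Set.Ioi (0 : ℝ), (om k (k / T) t : ℂ) *
        (riemannZeta (cl t) ^ 2 * Xf (cl t) ^ 2) * Pp ε T t ^ 2 * Cp (SS' ε T) (cB ε T) t with hX2
    have hcr' : ‖X1 - (S3 : ℂ)‖ ≤ T ^ (-e) * (1 + M12 k T) * (1 + S1) := hcr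
    have hsplit := split_int6 ε T k hδ
    rw [← hX1, ← hX2] at hsplit
    -- the error term
    have herr : T ^ (-e) * (1 + M12 k T) * (1 + S1) ≤ 1 := by
      have a1 : 1 ≤ T ^ (e / 2) := Real.one_le_rpow hT1.le (by positivity)
      have a2 : 1 + M12 k T ≤ 2 * T ^ (e / 2) := by linarith
      have a3 : 1 + S1 ≤ (1 + |v1|) * (1 + L) ^ 36 := by
        have b1 : v1 * L ^ 36 ≤ |v1| * (1 + L) ^ 36 := by
          calc v1 * L ^ 36 ≤ |v1| * L ^ 36 := mul_le_mul_of_nonneg_right (le_abs_self _) hL36.le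
            _ ≤ |v1| * (1 + L) ^ 36 :=
              mul_le_mul_of_nonneg_left (pow_le_pow_left₀ hL0.le (by linarith) _) (abs_nonneg _)
        have b2 : 1 ≤ (1 + L) ^ 36 := one_le_pow₀ (by linarith)
        calc 1 + S1 ≤ (1 + L) ^ 36 + |v1| * (1 + L) ^ 36 := by linarith
          _ = (1 + |v1|) * (1 + L) ^ 36 := by ring
      have a4 : T ^ (-e) * T ^ (e / 2) * T ^ (e / 2) = 1 := by
        rw [← Real.rpow_add hT0, ← Real.rpow_add hT0]
        ring_nf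
        exact Real.rpow_zero T
      calc T ^ (-e) * (1 + M12 k T) * (1 + S1)
          ≤ T ^ (-e) * (2 * T ^ (e / 2)) * ((1 + |v1|) * (1 + L) ^ 36) := by gcongr
        _ = T ^ (-e) * T ^ (e / 2) * (2 * (1 + |v1|) * (1 + L) ^ 36) := by ring
        _ ≤ T ^ (-e) * T ^ (e / 2) * T ^ (e / 2) :=
            mul_le_mul_of_nonneg_left q8 (by positivity)
        _ = 1 := a4
    -- lower bound of the integral
    have hX : (w1c + w2c) * L ^ 36 ≤ ‖X1 + X2‖ := by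
      have b1 : ‖X1 + X2 - ((S3 + S4 : ℝ) : ℂ)‖ ≤ 2 := by
        have : X1 + X2 - ((S3 + S4 : ℝ) : ℂ) = (X1 - (S3 : ℂ)) + (X2 - (S4 : ℂ)) := by
          push_cast
          ring
        rw [this]
        refine (norm_add_le _ _).trans ?_
        have := hcr'.trans herr
        linarith
      have b2 : |S3 + S4| ≤ ‖X1 + X2‖ + 2 := by
        have b3 : ‖((S3 + S4 : ℝ) : ℂ)‖ ≤ ‖X1 + X2‖ + ‖X1 + X2 - ((S3 + S4 : ℝ) : ℂ)‖ := by
          have := norm_sub_norm_le ((S3 + S4 : ℝ) : ℂ) (X1 + X2)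
          rw [norm_sub_rev] at this
          linarith
        rw [Complex.norm_real, Real.norm_eq_abs] at b3
        linarith
      have b4 : 2 ≤ (u1 - w1c) * L ^ 36 := by
        rw [div_le_iff₀ (by linarith)] at q11
        have : (u1 - w1c) * L ≤ (u1 - w1c) * L ^ 36 :=
          mul_le_mul_of_nonneg_left hLL (by linarith)
        linarith
      have b5 := le_abs_self (S3 + S4)
      have b6 : (u1 - w1c) * L ^ 36 = u1 * L ^ 36 - w1c * L ^ 36 := by ring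
      have b7 : (w1c + w2c) * L ^ 36 = w1c * L ^ 36 + w2c * L ^ 36 := by ring
      rw [b7]
      linarith
    -- upper bound of the norm of `B`
    have hB : (∫ t in Set.Ioi (0 : ℝ), om k (k / T) t * ‖Bd ε T t‖ ^ 2) ≤ (w1n + w2n) * L ^ 36 := by
      have b4 : 1 ≤ (w1n - v1) * L ^ 36 := by
        rw [div_le_iff₀ (by linarith)] at q10
        have : (w1n - v1) * L ≤ (w1n - v1) * L ^ 36 :=
          mul_le_mul_of_nonneg_left hLL (by linarith)
        linarith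
      have b6 : (w1n - v1) * L ^ 36 = w1n * L ^ 36 - v1 * L ^ 36 := by ring
      have b7 : (w1n + w2n) * L ^ 36 = w1n * L ^ 36 + w2n * L ^ 36 := by ring
      rw [b7]
      linarith
    have hB0 : 0 ≤ ∫ t in Set.Ioi (0 : ℝ), om k (k / T) t * ‖Bd ε T t‖ ^ 2 := by
      refine setIntegral_nonneg measurableSet_Ioi fun t ht => ?_
      exact mul_nonneg (om_nonneg k hδ (le_of_lt ht)) (by positivity)
    have hA0 : 0 ≤ ∫ t in Set.Ioi (0 : ℝ), om k (k / T) t * ‖Pp ε T t‖ ^ 6 := by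
      refine setIntegral_nonneg measurableSet_Ioi fun t ht => ?_
      exact mul_nonneg (om_nonneg k hδ (le_of_lt ht)) (by positivity)
    have hHo := hH ε T hT1 k hk1
    rw [hsplit] at hHo
    have hn4 : 0 ≤ n4 := by
      by_contra hneg
      push Not at hneg
      have : n4 * L ^ 36 < 0 := mul_neg_of_neg_of_pos hneg hL36
      linarith
    have hw : 0 ≤ w1n + w2n := by
      by_contra hneg
      push Not at hneg
      have : (w1n + w2n) * L ^ 36 < 0 := mul_neg_of_neg_of_pos hneg hL36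
      linarith
    have hmain : ((w1c + w2c) * L ^ 36) ^ 6 ≤
        M12 k T * (n4 * L ^ 36) ^ 2 * ((w1n + w2n) * L ^ 36) ^ 3 := by
      calc ((w1c + w2c) * L ^ 36) ^ 6 ≤ ‖X1 + X2‖ ^ 6 :=
            pow_le_pow_left₀ (mul_nonneg h1 hL36.le) hX 6
        _ ≤ _ := hHo
        _ ≤ M12 k T * (n4 * L ^ 36) ^ 2 * ((w1n + w2n) * L ^ 36) ^ 3 := by
            gcongr
    rcases eq_or_lt_of_le (mul_nonneg (sq_nonneg n4) (pow_nonneg hw 3)) with h0 | h0
    · rw [hK, ← h0, div_zero, zero_mul]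
      exact hM0
    · rw [hK, div_mul_eq_mul_div, div_le_iff₀ h0]
      have h48 : 0 < L ^ 180 := by positivity
      have : ((w1c + w2c) ^ 6 * L ^ 36) * L ^ 180 ≤ (M12 k T * (n4 ^ 2 * (w1n + w2n) ^ 3)) * L ^ 180 := by
        calc ((w1c + w2c) ^ 6 * L ^ 36) * L ^ 180 = ((w1c + w2c) * L ^ 36) ^ 6 := by ring
          _ ≤ _ := hmain
          _ = _ := by ring
      exact le_of_mul_le_mul_right this h48

/-- F2. The twelfth moment lower bound -/
theorem twelfth_moment_of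
    (JA_lim : Tendsto JAn (𝓝[>] 0) (𝓝 (162761294670975 / 32768 / (Nat.factorial 36 : ℝ))) ∧
      Tendsto JAc (𝓝[>] 0) (𝓝 (408070242103939482375 / 144115188075855872 / (Nat.factorial 36 : ℝ))))
    (JB_lim : Tendsto JBn (𝓝[>] 0) (𝓝 (14042804082181875 / 8388608 / (Nat.factorial 36 : ℝ))) ∧
      Tendsto JBc (𝓝[>] 0) (𝓝 (553280105047466671875 / 576460752303423488 / (Nat.factorial 36 : ℝ))))
    (JP_le : ∀ (ε : ℝ), 0 < ε → ε < 1 / 16 → JP ε ≤ 211045792946625 / 2361183241434822606848 / (Nat.factorial 36 : ℝ))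
    (main_lower : ∀ (ε : ℝ), 0 < ε → ε < 1 / 16 → ∀ (w1c w2c w1n w2n n4 : ℝ),
      0 ≤ w1c + w2c → w1c < aF 6 * JAc ε → w2c < aF 6 * JBc ε →
      aF 6 * JAn ε < w1n → aF 6 * JBn ε < w2n → aF 6 * JP ε < n4 →
      ∀ᶠ T : ℝ in atTop, ∀ k : ℕ, kr' T k →
        (w1c + w2c) ^ 6 / (n4 ^ 2 * (w1n + w2n) ^ 3) * Real.log T ^ 36 ≤ M12 k T) :
    ∀ᶠ T : ℝ in atTop,
      1269000 * aF 6 / (Nat.factorial 36 : ℝ) * T * Real.log T ^ 36 ≤
        ∫ t in (0 : ℝ)..T, ‖riemannZeta (1 / 2 + t * Complex.I)‖ ^ 12 := by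
  have ha : 0 < aF 6 := aF_pos (by norm_num)
  have hF : (0 : ℝ) < (Nat.factorial 36 : ℝ) := by exact_mod_cast Nat.factorial_pos 36
  set F : ℝ := (Nat.factorial 36 : ℝ) with hFdef
  set a : ℝ := aF 6 with hadef
  set η : ℝ := 1 / 1000000 with hη
  have hη0 : 0 < η := by rw [hη]; norm_num
  have hη1 : η < 1 := by rw [hη]; norm_num
  have hA1 : (0 : ℝ) < 162761294670975 / 32768 / F := by positivity
  have hA2 : (0 : ℝ) < 408070242103939482375 / 144115188075855872 / F := by positivity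
  have hB1 : (0 : ℝ) < 14042804082181875 / 8388608 / F := by positivity
  have hB2 : (0 : ℝ) < 553280105047466671875 / 576460752303423488 / F := by positivity
  have hN0 : (0 : ℝ) < 211045792946625 / 2361183241434822606848 / F := by positivity
  have e1 := JA_lim.1.eventually_lt_const
    (show 162761294670975 / 32768 / F < 162761294670975 / 32768 / F * (1 + η) by nlinarith)
  have e2 := JA_lim.2.eventually_const_lt
    (show 408070242103939482375 / 144115188075855872 / F * (1 - η) < 408070242103939482375 / 144115188075855872 / F by nlinarith)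
  have e3 := JB_lim.1.eventually_lt_const
    (show 14042804082181875 / 8388608 / F < 14042804082181875 / 8388608 / F * (1 + η) by nlinarith)
  have e4 := JB_lim.2.eventually_const_lt
    (show 553280105047466671875 / 576460752303423488 / F * (1 - η) < 553280105047466671875 / 576460752303423488 / F by nlinarith)
  have e6 : ∀ᶠ ε : ℝ in 𝓝[>] 0, ε ∈ Set.Ioo (0 : ℝ) (1 / 16) :=
    Ioo_mem_nhdsGT (by norm_num)
  obtain ⟨ε, h1, h2, h3, h4, h6⟩ := (e1.and (e2.and (e3.and (e4.and e6)))).exists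
  have h5 : JP ε < 211045792946625 / 2361183241434822606848 / F * (1 + η) :=
    lt_of_le_of_lt (JP_le ε h6.1 h6.2) (by nlinarith)
  have hm := main_lower ε h6.1 h6.2 (a * (408070242103939482375 / 144115188075855872 / F * (1 - η)))
    (a * (553280105047466671875 / 576460752303423488 / F * (1 - η))) (a * (162761294670975 / 32768 / F * (1 + η)))
    (a * (14042804082181875 / 8388608 / F * (1 + η))) (a * (211045792946625 / 2361183241434822606848 / F * (1 + η)))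
    (by
      have h7 : 0 < 1 - η := by linarith
      positivity)
    (mul_lt_mul_of_pos_left h2 ha) (mul_lt_mul_of_pos_left h4 ha)
    (mul_lt_mul_of_pos_left h1 ha) (mul_lt_mul_of_pos_left h3 ha)
    (mul_lt_mul_of_pos_left h5 ha)
  set c1 : ℝ := (a * (408070242103939482375 / 144115188075855872 / F * (1 - η)) + a * (553280105047466671875 / 576460752303423488 / F * (1 - η))) ^ 6 /
    ((a * (211045792946625 / 2361183241434822606848 / F * (1 + η))) ^ 2 *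
      (a * (162761294670975 / 32768 / F * (1 + η)) + a * (14042804082181875 / 8388608 / F * (1 + η))) ^ 3) with hc1
  have hc1v : c1 = a / F * (((408070242103939482375 / 144115188075855872 + 553280105047466671875 / 576460752303423488) * (1 - η)) ^ 6 /
      ((211045792946625 / 2361183241434822606848 * (1 + η)) ^ 2 * ((162761294670975 / 32768 + 14042804082181875 / 8388608) * (1 + η)) ^ 3)) := by
    rw [hc1]
    have h8 : (1 + η) ≠ 0 := by linarith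
    field_simp
  have hnum : (1269000 : ℝ) < ((408070242103939482375 / 144115188075855872 + 553280105047466671875 / 576460752303423488) * (1 - η)) ^ 6 /
      ((211045792946625 / 2361183241434822606848 * (1 + η)) ^ 2 * ((162761294670975 / 32768 + 14042804082181875 / 8388608) * (1 + η)) ^ 3) := by
    rw [hη]
    norm_num
  have hc1c : 1269000 * a / F < c1 := by
    rw [hc1v]
    have h9 : 0 < a / F := by positivity
    calc 1269000 * a / F = a / F * 1269000 := by ring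
      _ < _ := mul_lt_mul_of_pos_left hnum h9
  have hc10 : 0 ≤ c1 := by
    refine le_trans ?_ hc1c.le
    positivity
  have hcont : Continuous (fun t : ℝ => ‖riemannZeta (cl t)‖ ^ 12) :=
    (Pool.Agent.H56R2.EM_MF2.zeta_cont.norm).pow 12
  exact Pool.Agent.H965R2.SMT1.window_gamma (fun t : ℝ => ‖riemannZeta (cl t)‖ ^ 12) hcont
    (fun t => by positivity)
    ⟨24 ^ 12, 24, fun t ht => by
      calc ‖riemannZeta (cl t)‖ ^ 12 ≤ (24 * (1 + t) ^ 2) ^ 12 :=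
            pow_le_pow_left₀ (norm_nonneg _) (Pool.Agent.H56R2.EM_MF2.zeta_bound t ht) 12
        _ = _ := by ring⟩ c1 hc10 36 (by
      filter_upwards [hm] with T hT k hk1 hk2
      exact hT k ⟨hk1, hk2⟩) _ hc1c

end

end Pool.Agent.H223R2.TMF
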