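import Pool.Agent.H284R2.EM_MH
import Pool.Agent.Helper112.Arith
import Pool.Agent.H306R2.SM.Asm6
import Pool.Agent.H223.TM.Defs

set_option autoImplicit false

/-!
Twelfth moment lower bound, X1: the twisted second moment with `P²`.
-/

namespace Pool.Agent.H223R2.TMX1

open Finset Filter Topology MeasureTheory Complex
open Pool.Agent.H306R2 Pool.Agent.H223.EM Pool.Agent.H223.TM
open Pool.Agent.H306R2.SM (om Xf cl ef Yf om_mass)

noncomputable section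

/-- pairs with a given product -/
def prs (N n : ℕ) : Finset (ℕ × ℕ) :=
  ((Icc 1 N) ×ˢ (Icc 1 N)).filter (fun x => x.1 * x.2 = n)

/-- coefficients of `P²` -/
def sq (N : ℕ) (f : ℕ → ℝ) (n : ℕ) : ℝ := ∑ x ∈ prs N n, f x.1 * f x.2

lemma sum_sq {E : Type*} [AddCommGroup E] [Module ℝ E] (N : ℕ) (f : ℕ → ℝ) (G : ℕ → E) :
    ∑ n ∈ Icc 1 (N * N), sq N f n • G n =
      ∑ n1 ∈ Icc 1 N, ∑ n2 ∈ Icc 1 N, (f n1 * f n2) • G (n1 * n2) := by
  rw [← Finset.sum_product']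
  rw [← Finset.sum_fiberwise_of_maps_to (s := (Icc 1 N) ×ˢ (Icc 1 N)) (t := Icc 1 (N * N))
    (g := fun x => x.1 * x.2)]
  · refine sum_congr rfl fun n _ => ?_
    unfold sq prs
    rw [sum_smul]
    refine sum_congr rfl fun x hx => ?_
    rw [(mem_filter.1 hx).2]
  · intro x hx
    rw [mem_product, mem_Icc, mem_Icc] at hx
    rw [mem_Icc]
    exact ⟨Nat.mul_pos hx.1.1 hx.2.1, Nat.mul_le_mul hx.1.2 hx.2.2⟩

lemma card_prs (N n : ℕ) : ((prs N n).card : ℝ) ≤ d2 n := by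
  unfold d2
  have : (prs N n).card ≤ n.divisors.card := by
    refine Finset.card_le_card_of_injOn (fun x => x.1) ?_ ?_
    · intro x hx
      simp only [prs, coe_filter, Set.mem_setOf_eq, mem_product, mem_Icc] at hx
      simp only [mem_coe, Nat.mem_divisors]
      refine ⟨⟨x.2, hx.2.symm⟩, ?_⟩
      rw [← hx.2]
      exact (Nat.mul_pos hx.1.1.1 hx.1.2.1).ne'
    · intro x hx y hy hxy
      simp only [prs, coe_filter, Set.mem_setOf_eq, mem_product, mem_Icc] at hx hy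
      have h1 : x.1 = y.1 := hxy
      have h2 : x.1 * x.2 = x.1 * y.2 := by rw [hx.2, h1, hy.2]
      exact Prod.ext h1 (Nat.eq_of_mul_eq_mul_left hx.1.1.1 h2)
  exact_mod_cast this

lemma sq_le (N n : ℕ) (f : ℕ → ℝ) (D : ℝ) (hf : ∀ m ∈ Icc 1 N, |f m| ≤ D) :
    |sq N f n| ≤ D ^ 2 * d2 n := by
  unfold sq
  calc |∑ x ∈ prs N n, f x.1 * f x.2| ≤ ∑ x ∈ prs N n, |f x.1 * f x.2| := abs_sum_le_sum_abs _ _
    _ ≤ ∑ _x ∈ prs N n, D ^ 2 := by
        refine sum_le_sum fun x hx => ?_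
        simp only [prs, mem_filter, mem_product] at hx
        have h1 := hf x.1 hx.1.1
        have h2 := hf x.2 hx.1.2
        rw [abs_mul, pow_two]
        exact mul_le_mul h1 h2 (abs_nonneg _) ((abs_nonneg _).trans h1)
    _ = (prs N n).card * D ^ 2 := by rw [sum_const, nsmul_eq_mul]
    _ ≤ d2 n * D ^ 2 := mul_le_mul_of_nonneg_right (card_prs N n) (sq_nonneg _)
    _ = _ := mul_comm _ _

lemma ef_mul (θ θ' t : ℝ) : ef θ t * ef θ' t = ef (θ + θ') t := by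
  unfold ef
  rw [← Complex.exp_add]
  congr 1
  push_cast
  ring

/-- `P²` as a Dirichlet polynomial -/
lemma Pp_sq (ε T t : ℝ) : Pp ε T t ^ 2 =
    ∑ n ∈ Icc 1 (N4 ε T * N4 ε T), ((sq (N4 ε T) (ap ε T) n / Real.sqrt n : ℝ) : ℂ) *
      ef (-(Real.log n)) t := by
  have h := sum_sq (E := ℂ) (N4 ε T) (ap ε T)
    (fun n => ((1 / Real.sqrt n : ℝ) : ℂ) * ef (-(Real.log n)) t)
  have e1 : ∑ n ∈ Icc 1 (N4 ε T * N4 ε T), ((sq (N4 ε T) (ap ε T) n / Real.sqrt n : ℝ) : ℂ) *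
      ef (-(Real.log n)) t = ∑ n ∈ Icc 1 (N4 ε T * N4 ε T), sq (N4 ε T) (ap ε T) n •
        (((1 / Real.sqrt n : ℝ) : ℂ) * ef (-(Real.log n)) t) := by
    refine sum_congr rfl fun n _ => ?_
    rw [Complex.real_smul]
    push_cast
    ring
  rw [e1, h]
  unfold Pp
  rw [pow_two, sum_mul_sum]
  refine sum_congr rfl fun n1 h1 => sum_congr rfl fun n2 h2 => ?_
  have p1 : (0:ℝ) < n1 := by exact_mod_cast (mem_Icc.1 h1).1
  have p2 : (0:ℝ) < n2 := by exact_mod_cast (mem_Icc.1 h2).1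
  have e2 : ef (-(Real.log ((n1 * n2 : ℕ) : ℝ))) t = ef (-(Real.log n1)) t * ef (-(Real.log n2)) t := by
    rw [ef_mul]
    congr 1
    push_cast
    rw [Real.log_mul p1.ne' p2.ne']
    ring
  have e3 : Real.sqrt ((n1 * n2 : ℕ) : ℝ) = Real.sqrt n1 * Real.sqrt n2 := by
    push_cast
    rw [Real.sqrt_mul p1.le]
  rw [Complex.real_smul, e2, e3]
  have q1 := (Real.sqrt_pos.2 p1).ne'
  have q2 := (Real.sqrt_pos.2 p2).ne'
  have q1c : (Real.sqrt n1 : ℂ) ≠ 0 := by exact_mod_cast q1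
  have q2c : (Real.sqrt n2 : ℂ) ≠ 0 := by exact_mod_cast q2
  push_cast
  field_simp

/-- the eighth moment is at most `1 +` the twelfth -/
lemma M8_le (k : ℕ) {T : ℝ} (hδ : 0 < (k : ℝ) / T) :
    ∫ t in Set.Ioi (0 : ℝ), om k (k / T) t * ‖riemannZeta (cl t)‖ ^ 8 ≤ 1 + M12 k T := by
  have i0 : IntegrableOn (fun t : ℝ => om k (k / T) t * ‖(1 : ℂ)‖) (Set.Ioi 0) :=
    (Pool.Agent.H284R2.EM.PG.const 1).intPow k hδ
  have i8 : IntegrableOn (fun t : ℝ => om k (k / T) t * ‖riemannZeta (cl t) ^ 8‖) (Set.Ioi 0) :=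
    (Pool.Agent.H284R2.EM.PG.zeta.pow 8).intPow k hδ
  have i12 : IntegrableOn (fun t : ℝ => om k (k / T) t * ‖riemannZeta (cl t) ^ 12‖) (Set.Ioi 0) :=
    (Pool.Agent.H284R2.EM.PG.zeta.pow 12).intPow k hδ
  simp only [norm_one, mul_one, norm_pow] at i0 i8 i12
  have e1 : 1 + M12 k T = ∫ t in Set.Ioi (0 : ℝ), (om k (k / T) t +
      om k (k / T) t * ‖riemannZeta (cl t)‖ ^ 12) := by
    rw [integral_add i0 i12, om_mass k hδ]
    rfl
  rw [e1]
  refine setIntegral_mono_on i8 (i0.add i12) measurableSet_Ioi fun t ht => ?_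
  have hw := Pool.Agent.H284R2.EM.om_nonneg k hδ (le_of_lt ht)
  have hz : ‖riemannZeta (cl t)‖ ^ 8 ≤ 1 + ‖riemannZeta (cl t)‖ ^ 12 := by
    set x := ‖riemannZeta (cl t)‖ with hx
    have hx0 : 0 ≤ x := norm_nonneg _
    rcases le_total x 1 with h | h
    · have : x ^ 8 ≤ 1 := pow_le_one₀ hx0 h
      have : 0 ≤ x ^ 12 := by positivity
      linarith
    · have : x ^ 8 ≤ x ^ 12 := pow_le_pow_right₀ h (by norm_num)
      linarith
  calc om k (k / T) t * ‖riemannZeta (cl t)‖ ^ 8 ≤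
      om k (k / T) t * (1 + ‖riemannZeta (cl t)‖ ^ 12) := mul_le_mul_of_nonneg_left hz hw
    _ = _ := by ring

/-- X1 -/
theorem TW6_of
    (TW : ∀ (ε : ℝ), 0 < ε → ε < 1 / 4 → ∃ e : ℝ, 0 < e ∧ ∀ᶠ T : ℝ in atTop,
      ∀ k : ℕ, kr' T k → ∀ N : ℕ, (N : ℝ) ≤ T ^ (1 / 2 - ε) →
      ∀ a : ℕ → ℝ, (∀ n, |a n| ≤ d2 n) → ∀ S : Finset (ℕ × ℕ), (∀ b ∈ S, Adm ε T b) →
      ∀ c : ℕ × ℕ → ℝ,
      ‖(∫ t in Set.Ioi (0 : ℝ), (om k (k / T) t : ℂ) * (riemannZeta (cl t) ^ 2 * Xf (cl t)) *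
          (∑ n ∈ Icc 1 N, ((a n / Real.sqrt n : ℝ) : ℂ) * ef (-(Real.log n)) t) *
          (∑ b ∈ S, (c b : ℂ) * ef (Real.log ((b.1 : ℝ) / b.2)) t)) -
        ((∑ b ∈ S, c b * ∑ n ∈ Icc 1 N, a n / Real.sqrt n * Mt k (Yf k T) b.1 b.2 n : ℝ) : ℂ)‖ ≤
      T ^ (-e) * (1 + ∫ t in Set.Ioi (0 : ℝ), om k (k / T) t * ‖riemannZeta (cl t)‖ ^ 8) *
        (1 + ∑ b ∈ S, c b ^ 2))
    (ε : ℝ) (hε : 0 < ε) (hε1 : ε < 1 / 16) : ∃ e : ℝ, 0 < e ∧ ∀ᶠ T : ℝ in atTop,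
    ∀ k : ℕ, kr' T k → ∀ S : Finset (ℕ × ℕ), (∀ b ∈ S, Adm ε T b) → ∀ c : ℕ × ℕ → ℝ,
    ‖(∫ t in Set.Ioi (0 : ℝ), (om k (k / T) t : ℂ) * (riemannZeta (cl t) ^ 2 * Xf (cl t)) *
        Pp ε T t ^ 2 * Cp S c t) -
      ((∑ b ∈ S, c b * ∑ n1 ∈ Icc 1 (N4 ε T), ∑ n2 ∈ Icc 1 (N4 ε T),
        ap ε T n1 * ap ε T n2 / Real.sqrt ((n1 : ℝ) * n2) * Mt k (Yf k T) b.1 b.2 (n1 * n2) : ℝ) : ℂ)‖ ≤
    T ^ (-e) * (1 + M12 k T) * (1 + ∑ b ∈ S, c b ^ 2) := by
  obtain ⟨e, he, hT⟩ := TW ε hε (by linarith)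
  obtain ⟨C, hC, hdiv⟩ := Pool.Agent.Helper112.divisor_bound (e / 4) (by positivity)
  refine ⟨e / 4, by positivity, ?_⟩
  have hbig : ∀ᶠ T : ℝ in atTop, max 2 (C ^ 2) ≤ T ^ (e / 8) :=
    (tendsto_rpow_atTop (by positivity)).eventually_ge_atTop _
  filter_upwards [hT, hbig, eventually_gt_atTop (Real.exp 1)] with T hT hbig hTe k hk S hS c
  have hT0 : 0 < T := lt_trans (Real.exp_pos 1) hTe
  have hT1 : 1 < T := by
    have : (1:ℝ) < Real.exp 1 := by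
      have := Real.add_one_lt_exp (x := 1) one_ne_zero
      linarith
    linarith
  have hδ : 0 < (k : ℝ) / T := by
    have h1 : 1 < Real.log T := by
      rw [Real.lt_log_iff_exp_lt hT0]; exact hTe
    have h2 : (1:ℝ) < k := by nlinarith [hk.1]
    positivity
  set N := N4 ε T with hN
  have hNle : (N : ℝ) ≤ T ^ (1 / 4 - ε) := Nat.floor_le (by positivity)
  have hNN : ((N * N : ℕ) : ℝ) ≤ T ^ (1 / 2 - ε) := by
    push_cast
    calc (N : ℝ) * N ≤ T ^ (1 / 4 - ε) * T ^ (1 / 4 - ε) :=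
          mul_le_mul hNle hNle (by positivity) (by positivity)
      _ = T ^ (1 / 2 - 2 * ε) := by rw [← Real.rpow_add hT0]; congr 1; ring
      _ ≤ T ^ (1 / 2 - ε) := Real.rpow_le_rpow_of_exponent_le hT1.le (by linarith)
  -- the bound for the coefficients
  set D : ℝ := C * T ^ (e / 8) with hD
  have hfD : ∀ m ∈ Icc 1 N, |ap ε T m| ≤ D := by
    intro m hm
    have hm1 := (mem_Icc.1 hm).1
    have hmN := (mem_Icc.1 hm).2
    have h1 : |ap ε T m| ≤ d2 m := by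
      unfold ap eq4
      rw [abs_mul, abs_of_nonneg (sc_nonneg _ _ _)]
      have hd : 0 ≤ d2 m := by unfold d2; positivity
      rw [abs_of_nonneg hd]
      exact mul_le_of_le_one_right hd (sc_le_one _ _ _)
    have h2 : (m : ℝ) ≤ T ^ (1 / 2 : ℝ) := by
      calc (m : ℝ) ≤ N := by exact_mod_cast hmN
        _ ≤ T ^ (1 / 4 - ε) := hNle
        _ ≤ T ^ (1 / 2 : ℝ) := Real.rpow_le_rpow_of_exponent_le hT1.le (by linarith)
    calc |ap ε T m| ≤ d2 m := h1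
      _ ≤ C * (m : ℝ) ^ (e / 4) := hdiv m hm1
      _ ≤ C * (T ^ (1 / 2 : ℝ)) ^ (e / 4) := by
          apply mul_le_mul_of_nonneg_left _ hC.le
          exact Real.rpow_le_rpow (by positivity) h2 (by positivity)
      _ = D := by rw [← Real.rpow_mul hT0.le, hD]; congr 2; ring
  set s : ℝ := T ^ (e / 2) with hs
  have hs0 : 0 < s := by positivity
  have hsD : D ^ 2 ≤ s := by
    have h1 : C ^ 2 ≤ T ^ (e / 8) := (le_max_right _ _).trans hbig
    calc D ^ 2 = C ^ 2 * (T ^ (e / 8)) ^ 2 := by rw [hD]; ring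
      _ = C ^ 2 * T ^ (e / 4) := by
          have : (T ^ (e / 8)) ^ 2 = T ^ (e / 4) := by
            rw [← Real.rpow_natCast (T ^ (e / 8)) 2, ← Real.rpow_mul hT0.le]
            congr 1
            push_cast
            ring
          rw [this]
      _ ≤ T ^ (e / 8) * T ^ (e / 4) := mul_le_mul_of_nonneg_right h1 (by positivity)
      _ = T ^ (3 * e / 8) := by rw [← Real.rpow_add hT0]; congr 1; ring
      _ ≤ s := Real.rpow_le_rpow_of_exponent_le hT1.le (by linarith)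
  have ha : ∀ n, |sq N (ap ε T) n / s| ≤ d2 n := by
    intro n
    have hd : 0 ≤ d2 n := by unfold d2; positivity
    rw [abs_div, abs_of_pos hs0, div_le_iff₀ hs0]
    calc |sq N (ap ε T) n| ≤ D ^ 2 * d2 n := sq_le N n _ D hfD
      _ ≤ s * d2 n := mul_le_mul_of_nonneg_right hsD hd
      _ = _ := mul_comm _ _
  have key := hT k hk (N * N) hNN (fun n => sq N (ap ε T) n / s) ha S hS c
  -- identify
  have e1 : ∫ t in Set.Ioi (0 : ℝ), (om k (k / T) t : ℂ) * (riemannZeta (cl t) ^ 2 * Xf (cl t)) *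
        Pp ε T t ^ 2 * Cp S c t = (s : ℂ) *
      ∫ t in Set.Ioi (0 : ℝ), (om k (k / T) t : ℂ) * (riemannZeta (cl t) ^ 2 * Xf (cl t)) *
          (∑ n ∈ Icc 1 (N * N), ((sq N (ap ε T) n / s / Real.sqrt n : ℝ) : ℂ) *
            ef (-(Real.log n)) t) *
          (∑ b ∈ S, (c b : ℂ) * ef (Real.log ((b.1 : ℝ) / b.2)) t) := by
    rw [← integral_const_mul]
    refine integral_congr_ae (Eventually.of_forall fun t => ?_)
    simp only
    have e2 : Pp ε T t ^ 2 = (s : ℂ) * ∑ n ∈ Icc 1 (N * N),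
        ((sq N (ap ε T) n / s / Real.sqrt n : ℝ) : ℂ) * ef (-(Real.log n)) t := by
      rw [Pp_sq, mul_sum]
      refine sum_congr rfl fun n _ => ?_
      have hsc : (s : ℂ) ≠ 0 := by exact_mod_cast hs0.ne'
      rw [← hN]
      push_cast
      field_simp
    rw [e2]
    unfold Cp
    ring
  have e3 : (∑ b ∈ S, c b * ∑ n1 ∈ Icc 1 N, ∑ n2 ∈ Icc 1 N,
        ap ε T n1 * ap ε T n2 / Real.sqrt ((n1 : ℝ) * n2) * Mt k (Yf k T) b.1 b.2 (n1 * n2)) =
      s * ∑ b ∈ S, c b * ∑ n ∈ Icc 1 (N * N), sq N (ap ε T) n / s / Real.sqrt n *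
        Mt k (Yf k T) b.1 b.2 n := by
    rw [mul_sum]
    refine sum_congr rfl fun b _ => ?_
    have h := sum_sq (E := ℝ) N (ap ε T) (fun n => 1 / Real.sqrt n * Mt k (Yf k T) b.1 b.2 n)
    have h1 : ∑ n1 ∈ Icc 1 N, ∑ n2 ∈ Icc 1 N,
        ap ε T n1 * ap ε T n2 / Real.sqrt ((n1 : ℝ) * n2) * Mt k (Yf k T) b.1 b.2 (n1 * n2) =
        ∑ n ∈ Icc 1 (N * N), sq N (ap ε T) n • (1 / Real.sqrt n * Mt k (Yf k T) b.1 b.2 n) := by
      rw [h]
      refine sum_congr rfl fun n1 _ => sum_congr rfl fun n2 _ => ?_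
      simp only [smul_eq_mul]
      push_cast
      ring
    rw [h1, mul_left_comm, mul_sum, mul_sum, mul_sum]
    refine sum_congr rfl fun n _ => ?_
    simp only [smul_eq_mul]
    field_simp
  rw [e1, e3, Complex.ofReal_mul, ← mul_sub, norm_mul, Complex.norm_real, Real.norm_of_nonneg hs0.le]
  have hM := M8_le k hδ
  have hM12 : 0 ≤ M12 k T := by
    unfold M12
    refine setIntegral_nonneg measurableSet_Ioi fun t ht => ?_
    exact mul_nonneg (Pool.Agent.H284R2.EM.om_nonneg k hδ (le_of_lt ht)) (by positivity)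
  have hSc : 0 ≤ ∑ b ∈ S, c b ^ 2 := sum_nonneg fun _ _ => sq_nonneg _
  calc s * _ ≤ s * (T ^ (-e) * (1 + ∫ t in Set.Ioi (0 : ℝ), om k (k / T) t *
        ‖riemannZeta (cl t)‖ ^ 8) * (1 + ∑ b ∈ S, c b ^ 2)) :=
        mul_le_mul_of_nonneg_left key hs0.le
    _ ≤ s * (T ^ (-e) * (2 * (1 + M12 k T)) * (1 + ∑ b ∈ S, c b ^ 2)) := by
        apply mul_le_mul_of_nonneg_left _ hs0.le
        apply mul_le_mul_of_nonneg_right _ (by positivity)
        apply mul_le_mul_of_nonneg_left _ (by positivity)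
        linarith
    _ = (s * T ^ (-e) * 2) * (1 + M12 k T) * (1 + ∑ b ∈ S, c b ^ 2) := by ring
    _ ≤ T ^ (-(e / 4)) * (1 + M12 k T) * (1 + ∑ b ∈ S, c b ^ 2) := by
        apply mul_le_mul_of_nonneg_right _ (by positivity)
        apply mul_le_mul_of_nonneg_right _ (by positivity)
        have h2 : (2:ℝ) ≤ T ^ (e / 8) := (le_max_left _ _).trans hbig
        calc s * T ^ (-e) * 2 = T ^ (-(e / 2)) * 2 := by
              rw [hs, ← Real.rpow_add hT0]; congr 2; ring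
          _ ≤ T ^ (-(e / 2)) * T ^ (e / 8) := mul_le_mul_of_nonneg_left h2 (by positivity)
          _ = T ^ (-(3 * e / 8)) := by rw [← Real.rpow_add hT0]; congr 1; ring
          _ ≤ T ^ (-(e / 4)) := Real.rpow_le_rpow_of_exponent_le hT1.le (by linarith)

end

end Pool.Agent.H223R2.TMX1
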