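import Pool.Agent.H36R2.EM_MB2
import Pool.Agent.H223R2.TM_X1
import Pool.Agent.H223R2.TM_X3

set_option autoImplicit false

/-!
Twelfth moment lower bound, X2: the cross term of `C2`.
-/

namespace Pool.Agent.H223R2.TMX2

open Finset Filter Topology MeasureTheory Complex
open Pool.Agent.H306R2 Pool.Agent.H306R2.SM Pool.Agent.H223.EM Pool.Agent.H223.TM
open Pool.Agent.H36R2.EM_MB2 (frac sum_d2 d2_nonneg polylog_small)
open Pool.Agent.H223R2.TMX1 (sum_sq Pp_sq prs)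

noncomputable section

/-- general form of MB2 -/
theorem gen_eval (ε : ℝ) (hε : 0 < ε) (hε1 : ε < 1 / 8) (T : ℝ) (k : ℕ) (hT : Real.exp 1 < T)
    (hk : kr' T k)
    (hB : ∀ P Q : ℕ, 1 ≤ P → 1 ≤ Q → Nat.Coprime P Q → (P : ℝ) ≤ T ^ (1 - ε) → (Q : ℝ) ≤ T →
          ‖(∫ t in Set.Ioi (0 : ℝ), (om k (k / T) t : ℂ) * riemannZeta (cl t) ^ 2 *
              ef (Real.log ((P : ℝ) / Q)) t) - (if Q = 1 then ((d2 P / Real.sqrt P : ℝ) : ℂ) else 0)‖ ≤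
            T ^ (-1 : ℝ))
    (N : ℕ) (hN : (N : ℝ) ≤ T ^ (1 / 2 - ε)) (a : ℕ → ℝ) (c : ℕ × ℕ → ℝ) :
    ‖(∫ t in Set.Ioi (0 : ℝ), (om k (k / T) t : ℂ) * (riemannZeta (cl t) ^ 2 * Xf (cl t) ^ 2) *
        (∑ n ∈ Icc 1 N, ((a n / Real.sqrt n : ℝ) : ℂ) * ef (-(Real.log n)) t) *
        Cp (SS' ε T) c t) -
      ((∑ b ∈ SS' ε T, c b * ∑ n ∈ Icc 1 N,
        if b.1 ∣ n then a n * d2 (b.2 * (n / b.1)) / Real.sqrt ((n : ℝ) * (b.2 * (n / b.1) : ℕ))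
          else 0 : ℝ) : ℂ)‖ ≤
      (∑ b ∈ SS' ε T, |c b|) * ((∑ n ∈ Icc 1 N, |a n / Real.sqrt n|) * T ^ (-1 : ℝ)) := by
  have hT1 : 1 < T := lt_trans (by
    have := Real.add_one_le_exp (1:ℝ)
    linarith) hT
  have hT0 : 0 < T := by linarith
  have hL1 : 1 < Real.log T := by
    rw [Real.lt_log_iff_exp_lt hT0]
    exact hT
  have hL : 0 < Real.log T := by linarith
  have hk1 : (1:ℝ) ≤ k := by
    refine le_trans ?_ hk.1
    nlinarith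
  have hδ : 0 < (k:ℝ) / T := div_pos (by linarith) hT0
  set f : ℝ → ℂ := fun t => (starRingEnd ℂ) (riemannZeta (cl t)) ^ 2 with hf
  have hfPG : PG f := (PG.zeta.conj).pow 2
  -- the inner integrals
  set J : ℕ × ℕ → ℕ → ℂ := fun b n => ∫ t in Set.Ioi (0 : ℝ), (om k (k / T) t : ℂ) * f t *
    ef (-(Real.log ((b.2 : ℝ) * n / b.1))) t with hJ
  have hint : (∫ t in Set.Ioi (0 : ℝ), (om k (k / T) t : ℂ) * (riemannZeta (cl t) ^ 2 * Xf (cl t) ^ 2) *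
        (∑ n ∈ Icc 1 N, ((a n / Real.sqrt n : ℝ) : ℂ) * ef (-(Real.log n)) t) * Cp (SS' ε T) c t) =
      ∑ b ∈ SS' ε T, (c b : ℂ) * ∑ n ∈ Icc 1 (N), ((a n / Real.sqrt n : ℝ) : ℂ) * J b n := by
    have e1 : ∀ t, (om k (k / T) t : ℂ) * (riemannZeta (cl t) ^ 2 * Xf (cl t) ^ 2) *
        (∑ n ∈ Icc 1 N, ((a n / Real.sqrt n : ℝ) : ℂ) * ef (-(Real.log n)) t) * Cp (SS' ε T) c t = (om k (k / T) t : ℂ) *
        ((f t * DP (Icc 1 (N)) (fun n => a n / Real.sqrt n) (fun n => Real.log n) t) *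
          ∑ b ∈ SS' ε T, (c b : ℂ) * ef (Real.log ((b.1 : ℝ) / b.2)) t) := by
      intro t
      have e2 : riemannZeta (cl t) ^ 2 * Xf (cl t) ^ 2 = f t := by
        rw [hf]
        simp only
        rw [← Xf_fe t]
        ring
      rw [e2]
      unfold Cp DP
      ring
    rw [integral_congr_ae (Eventually.of_forall fun t => e1 t)]
    rw [int_sum k hδ (hfPG.mul (DP_PG _ _ _)) (SS' ε T) c (fun b => Real.log ((b.1 : ℝ) / b.2))]
    refine sum_congr rfl fun b hb => ?_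
    congr 1
    have h1 : ∫ t in Set.Ioi (0:ℝ), (om k (k / T) t : ℂ) * (f t *
        DP (Icc 1 (N)) (fun n => a n / Real.sqrt n) (fun n => Real.log n) t) *
        ef (Real.log ((b.1 : ℝ) / b.2)) t =
      ∫ t in Set.Ioi (0:ℝ), (om k (k / T) t : ℂ) * ((f t * ef (Real.log ((b.1 : ℝ) / b.2)) t) *
        DP (Icc 1 (N)) (fun n => a n / Real.sqrt n) (fun n => Real.log n) t) := by
      refine integral_congr_ae (Eventually.of_forall fun t => ?_)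
      simp only
      ring
    rw [h1, int_DP k hδ (hfPG.mul (PG.ef _))]
    refine sum_congr rfl fun n hn => ?_
    congr 1
    rw [hJ]
    refine integral_congr_ae (Eventually.of_forall fun t => ?_)
    simp only
    have e3 : -(Real.log ((b.2 : ℝ) * n / b.1)) = Real.log ((b.1 : ℝ) / b.2) + -(Real.log n) := by
      unfold SS' at hb
      rw [mem_filter, mem_product, mem_Icc, mem_Icc] at hb
      rw [mem_Icc] at hn
      have g1 : (b.1 : ℝ) ≠ 0 := by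
        have := hb.1.1.1
        exact_mod_cast (by omega : b.1 ≠ 0)
      have g2 : (b.2 : ℝ) ≠ 0 := by
        have := hb.1.2.1
        exact_mod_cast (by omega : b.2 ≠ 0)
      have g3 : (n : ℝ) ≠ 0 := by exact_mod_cast (by omega : n ≠ 0)
      rw [Real.log_div (mul_ne_zero g2 g3) g1, Real.log_mul g2 g3, Real.log_div g1 g2]
      ring
    rw [e3, ← ef_mul]
    ring
  -- the values of the inner integrals
  have hJv : ∀ b ∈ SS' ε T, ∀ n ∈ Icc 1 (N),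
      ‖J b n - (if b.1 ∣ n then ((d2 (b.2 * (n / b.1)) / Real.sqrt (b.2 * (n / b.1) : ℕ) : ℝ) : ℂ) else 0)‖ ≤
        T ^ (-1 : ℝ) := by
    intro b hb n hn
    unfold SS' at hb
    rw [mem_filter, mem_product, mem_Icc, mem_Icc] at hb
    obtain ⟨⟨⟨hb1, hb2⟩, hb3, hb4⟩, hcop⟩ := hb
    rw [mem_Icc] at hn
    obtain ⟨F1, F2, F3, F4, F5, F6, F7, F8⟩ := frac hb1 hb3 hn.1 hcop
    have hZ : (0:ℝ) ≤ T ^ (1 / 2 - ε) := by positivity
    have q1 : (b.1 : ℝ) ≤ T ^ (1 / 2 - ε) := (Nat.le_floor_iff hZ).1 hb2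
    have q2 : (b.2 : ℝ) ≤ T ^ (1 / 2 - ε) := (Nat.le_floor_iff hZ).1 hb4
    have q3 : (n : ℝ) ≤ T ^ (1 / 2 - ε) := le_trans (by exact_mod_cast hn.2) hN
    have hP : ((b.2 * (n / Nat.gcd b.1 n) : ℕ) : ℝ) ≤ T ^ (1 - ε) := by
      calc ((b.2 * (n / Nat.gcd b.1 n) : ℕ) : ℝ) ≤ ((b.2 * n : ℕ) : ℝ) := by exact_mod_cast F4
        _ = (b.2 : ℝ) * n := by push_cast; ring
        _ ≤ T ^ (1 / 2 - ε) * T ^ (1 / 2 - ε) := mul_le_mul q2 q3 (Nat.cast_nonneg _) hZ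
        _ = T ^ ((1 / 2 - ε) + (1 / 2 - ε)) := by rw [Real.rpow_add hT0]
        _ ≤ T ^ (1 - ε) := Real.rpow_le_rpow_of_exponent_le hT1.le (by linarith)
    have hQ : ((b.1 / Nat.gcd b.1 n : ℕ) : ℝ) ≤ T := by
      calc ((b.1 / Nat.gcd b.1 n : ℕ) : ℝ) ≤ (b.1 : ℝ) := by exact_mod_cast F5
        _ ≤ T ^ (1 / 2 - ε) := q1
        _ ≤ T ^ (1 : ℝ) := Real.rpow_le_rpow_of_exponent_le hT1.le (by linarith)
        _ = T := Real.rpow_one T
    have h1 := hB _ _ F1 F2 F3 hP hQ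
    rw [F6] at h1
    have hconj : J b n = (starRingEnd ℂ) (∫ t in Set.Ioi (0 : ℝ), (om k (k / T) t : ℂ) *
        riemannZeta (cl t) ^ 2 * ef (Real.log ((b.2 : ℝ) * n / b.1)) t) := by
      rw [hJ, ← integral_conj]
      refine integral_congr_ae (Eventually.of_forall fun t => ?_)
      simp only [map_mul, map_pow, Complex.conj_ofReal, ef_conj, hf]
    have hval : (if b.1 ∣ n then ((d2 (b.2 * (n / b.1)) / Real.sqrt (b.2 * (n / b.1) : ℕ) : ℝ) : ℂ) else 0) =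
        (starRingEnd ℂ) (if b.1 / Nat.gcd b.1 n = 1 then
          ((d2 (b.2 * (n / Nat.gcd b.1 n)) / Real.sqrt ((b.2 * (n / Nat.gcd b.1 n) : ℕ) : ℝ) : ℝ) : ℂ) else 0) := by
      by_cases hd : b.1 ∣ n
      · rw [if_pos hd, if_pos (F7.2 hd), Complex.conj_ofReal, F8 hd]
      · rw [if_neg hd, if_neg (fun h => hd (F7.1 h)), map_zero]
    rw [hconj, hval, ← map_sub, RCLike.norm_conj]
    exact h1
  -- conclusion
  have hmain : ((∑ b ∈ SS' ε T, c b * ∑ n ∈ Icc 1 (N),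
        if b.1 ∣ n then a n * d2 (b.2 * (n / b.1)) / Real.sqrt ((n : ℝ) * (b.2 * (n / b.1) : ℕ))
          else 0 : ℝ) : ℂ) =
      ∑ b ∈ SS' ε T, (c b : ℂ) * ∑ n ∈ Icc 1 (N), ((a n / Real.sqrt n : ℝ) : ℂ) *
        (if b.1 ∣ n then ((d2 (b.2 * (n / b.1)) / Real.sqrt (b.2 * (n / b.1) : ℕ) : ℝ) : ℂ) else 0) := by
    rw [Complex.ofReal_sum]
    refine sum_congr rfl fun b _ => ?_
    rw [Complex.ofReal_mul, Complex.ofReal_sum]
    congr 1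
    refine sum_congr rfl fun n _ => ?_
    split_ifs
    · rw [← Complex.ofReal_mul, Real.sqrt_mul (Nat.cast_nonneg _)]
      congr 1
      rw [div_mul_div_comm]
    · simp
  rw [hint, hmain, ← sum_sub_distrib]
  have hfin : ∀ b ∈ SS' ε T, ‖(c b : ℂ) * ∑ n ∈ Icc 1 (N), ((a n / Real.sqrt n : ℝ) : ℂ) * J b n -
      (c b : ℂ) * ∑ n ∈ Icc 1 (N), ((a n / Real.sqrt n : ℝ) : ℂ) *
        (if b.1 ∣ n then ((d2 (b.2 * (n / b.1)) / Real.sqrt (b.2 * (n / b.1) : ℕ) : ℝ) : ℂ) else 0)‖ ≤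
      |c b| * ((∑ n ∈ Icc 1 (N), |a n / Real.sqrt n|) * T ^ (-1 : ℝ)) := by
    intro b hb
    rw [← mul_sub, norm_mul, Complex.norm_real, Real.norm_eq_abs]
    refine mul_le_mul_of_nonneg_left ?_ (abs_nonneg _)
    rw [← sum_sub_distrib, sum_mul]
    refine (norm_sum_le _ _).trans (sum_le_sum fun n hn => ?_)
    rw [← mul_sub, norm_mul, Complex.norm_real, Real.norm_eq_abs]
    exact mul_le_mul_of_nonneg_left (hJv b hb n hn) (abs_nonneg _)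
  refine (norm_sum_le _ _).trans ((sum_le_sum hfin).trans (le_of_eq ?_))
  exact (sum_mul _ _ _).symm

lemma ap_sum {ε T : ℝ} (hε : 0 < ε) (hε1 : ε < 1 / 16) (hT : 1 < T) :
    ∑ n ∈ Icc 1 (N4 ε T), |ap ε T n| / Real.sqrt n ≤ 2 * T ^ (1 / 8 : ℝ) * (1 + Real.log T) := by
  have hT0 : 0 < T := by linarith
  have hL : 0 < Real.log T := Real.log_pos hT
  have hZ : 1 ≤ T ^ (1 / 4 - ε) := Real.one_le_rpow hT.le (by linarith)
  have h1 : ∀ n ∈ Icc 1 (N4 ε T), |ap ε T n| / Real.sqrt n ≤ d2 n / Real.sqrt n := by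
    intro n _
    refine div_le_div_of_nonneg_right ?_ (Real.sqrt_nonneg _)
    unfold ap eq4
    rw [abs_mul, abs_of_nonneg (d2_nonneg n), abs_of_nonneg (sc_nonneg _ _ _)]
    exact mul_le_of_le_one_right (d2_nonneg n) (sc_le_one _ _ _)
  refine (sum_le_sum h1).trans ((sum_d2 hZ).trans ?_)
  have e1 : Real.sqrt (T ^ (1 / 4 - ε)) ≤ T ^ (1 / 8 : ℝ) := by
    rw [Real.sqrt_eq_rpow, ← Real.rpow_mul hT0.le]
    exact Real.rpow_le_rpow_of_exponent_le hT.le (by linarith)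
  have e2 : Real.log (T ^ (1 / 4 - ε)) ≤ Real.log T := by
    rw [Real.log_rpow hT0]
    nlinarith
  have e3 : 0 ≤ Real.log (T ^ (1 / 4 - ε)) := Real.log_nonneg hZ
  refine mul_le_mul (mul_le_mul_of_nonneg_left e1 (by norm_num)) (by linarith) (by linarith) (by positivity)

lemma sq_sum (N : ℕ) (f : ℕ → ℝ) :
    ∑ n ∈ Icc 1 (N * N), |TMX1.sq N f n / Real.sqrt n| ≤ (∑ n ∈ Icc 1 N, |f n| / Real.sqrt n) ^ 2 := by
  have h := sum_sq (E := ℝ) N (fun n => |f n|) (fun n => 1 / Real.sqrt n)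
  have h1 : ∀ n ∈ Icc 1 (N * N), |TMX1.sq N f n / Real.sqrt n| ≤
      TMX1.sq N (fun n => |f n|) n • (1 / Real.sqrt (n : ℝ)) := by
    intro n _
    rw [abs_div, abs_of_nonneg (Real.sqrt_nonneg _), smul_eq_mul, mul_one_div]
    refine div_le_div_of_nonneg_right ?_ (Real.sqrt_nonneg _)
    unfold TMX1.sq
    refine (abs_sum_le_sum_abs _ _).trans (le_of_eq ?_)
    exact sum_congr rfl fun x _ => abs_mul _ _
  refine (sum_le_sum h1).trans ?_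
  rw [h, pow_two, sum_mul_sum]
  refine le_of_eq (sum_congr rfl fun n1 _ => sum_congr rfl fun n2 _ => ?_)
  rw [smul_eq_mul]
  push_cast
  rw [Real.sqrt_mul (Nat.cast_nonneg _), div_mul_div_comm, mul_one_div]

/-- X2 -/
theorem cross2_eval6_of
    (B2_part : ∀ (ε : ℝ), 0 < ε → ε < 1 →
      ∀ᶠ T : ℝ in atTop, ∀ k : ℕ, kr' T k →
        ∀ P Q : ℕ, 1 ≤ P → 1 ≤ Q → Nat.Coprime P Q → (P : ℝ) ≤ T ^ (1 - ε) → (Q : ℝ) ≤ T →
          ‖(∫ t in Set.Ioi (0 : ℝ), (om k (k / T) t : ℂ) * riemannZeta (cl t) ^ 2 *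
              ef (Real.log ((P : ℝ) / Q)) t) - (if Q = 1 then ((d2 P / Real.sqrt P : ℝ) : ℂ) else 0)‖ ≤
            T ^ (-1 : ℝ))
    (hS2 : ∀ ε : ℝ, 0 < ε → ε < 1 / 16 →
      Tendsto (fun T : ℝ => (∑ b ∈ SS' ε T, cB ε T b ^ 2) / Real.log T ^ 36) atTop
        (𝓝 (aF 6 * JBn ε)))
    (ε : ℝ) (hε : 0 < ε) (hε1 : ε < 1 / 16) : ∀ᶠ T : ℝ in atTop, ∀ k : ℕ, kr' T k →
    ‖(∫ t in Set.Ioi (0 : ℝ), (om k (k / T) t : ℂ) * (riemannZeta (cl t) ^ 2 * Xf (cl t) ^ 2) *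
        Pp ε T t ^ 2 * Cp (SS' ε T) (cB ε T) t) -
      ((∑ b ∈ SS' ε T, cB ε T b * ∑ n1 ∈ Icc 1 (N4 ε T), ∑ n2 ∈ Icc 1 (N4 ε T),
        if b.1 ∣ n1 * n2 then ap ε T n1 * ap ε T n2 * d2 (b.2 * (n1 * n2 / b.1)) /
          Real.sqrt ((n1 : ℝ) * n2 * (b.2 * (n1 * n2 / b.1) : ℕ)) else 0 : ℝ) : ℂ)‖ ≤ 1 := by
  have hsm := (hS2 ε hε hε1).eventually_lt_const (lt_add_one (aF 6 * JBn ε))
  filter_upwards [B2_part ε hε (by linarith),
    Pool.Agent.H36R2.EM_MB2.polylog_small (|aF 6 * JBn ε| + 1) (1 / 8) (by norm_num) 36,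
    Pool.Agent.H36R2.EM_MB2.polylog_small 4 (1 / 8) (by norm_num) 2, hsm,
    eventually_gt_atTop (Real.exp 1)] with T hB hpl hpl2 hsm hT k hk
  have hT1 : 1 < T := lt_trans (by
    have := Real.add_one_le_exp (1:ℝ)
    linarith) hT
  have hT0 : 0 < T := by linarith
  have hL : 0 < Real.log T := Real.log_pos hT1
  set N := N4 ε T with hN
  have hNle : (N : ℝ) ≤ T ^ (1 / 4 - ε) := Nat.floor_le (by positivity)
  have hNN : ((N * N : ℕ) : ℝ) ≤ T ^ (1 / 2 - ε) := by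
    push_cast
    calc (N : ℝ) * N ≤ T ^ (1 / 4 - ε) * T ^ (1 / 4 - ε) :=
          mul_le_mul hNle hNle (by positivity) (by positivity)
      _ = T ^ (1 / 2 - 2 * ε) := by rw [← Real.rpow_add hT0]; congr 1; ring
      _ ≤ T ^ (1 / 2 - ε) := Real.rpow_le_rpow_of_exponent_le hT1.le (by linarith)
  have key := gen_eval ε hε (by linarith) T k hT hk (hB k hk) (N * N) hNN (TMX1.sq N (ap ε T)) (cB ε T)
  have e1 : ∫ t in Set.Ioi (0 : ℝ), (om k (k / T) t : ℂ) * (riemannZeta (cl t) ^ 2 * Xf (cl t) ^ 2) *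
        Pp ε T t ^ 2 * Cp (SS' ε T) (cB ε T) t =
      ∫ t in Set.Ioi (0 : ℝ), (om k (k / T) t : ℂ) * (riemannZeta (cl t) ^ 2 * Xf (cl t) ^ 2) *
        (∑ n ∈ Icc 1 (N * N), ((TMX1.sq N (ap ε T) n / Real.sqrt n : ℝ) : ℂ) * ef (-(Real.log n)) t) *
        Cp (SS' ε T) (cB ε T) t := by
    refine integral_congr_ae (Eventually.of_forall fun t => ?_)
    simp only
    rw [Pp_sq]
  have e2 : (∑ b ∈ SS' ε T, cB ε T b * ∑ n1 ∈ Icc 1 N, ∑ n2 ∈ Icc 1 N,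
        if b.1 ∣ n1 * n2 then ap ε T n1 * ap ε T n2 * d2 (b.2 * (n1 * n2 / b.1)) /
          Real.sqrt ((n1 : ℝ) * n2 * (b.2 * (n1 * n2 / b.1) : ℕ)) else 0) =
      ∑ b ∈ SS' ε T, cB ε T b * ∑ n ∈ Icc 1 (N * N),
        if b.1 ∣ n then TMX1.sq N (ap ε T) n * d2 (b.2 * (n / b.1)) /
          Real.sqrt ((n : ℝ) * (b.2 * (n / b.1) : ℕ)) else 0 := by
    refine sum_congr rfl fun b _ => ?_
    congr 1
    have h := sum_sq (E := ℝ) N (ap ε T) (fun n => if b.1 ∣ n then d2 (b.2 * (n / b.1)) /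
      Real.sqrt ((n : ℝ) * (b.2 * (n / b.1) : ℕ)) else 0)
    have h1 : ∑ n ∈ Icc 1 (N * N), (if b.1 ∣ n then TMX1.sq N (ap ε T) n * d2 (b.2 * (n / b.1)) /
          Real.sqrt ((n : ℝ) * (b.2 * (n / b.1) : ℕ)) else 0) =
        ∑ n ∈ Icc 1 (N * N), TMX1.sq N (ap ε T) n • (if b.1 ∣ n then d2 (b.2 * (n / b.1)) /
      Real.sqrt ((n : ℝ) * (b.2 * (n / b.1) : ℕ)) else 0) := by
      refine sum_congr rfl fun n _ => ?_
      rw [smul_eq_mul]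
      split_ifs
      · ring
      · ring
    rw [h1, h]
    refine sum_congr rfl fun n1 _ => sum_congr rfl fun n2 _ => ?_
    rw [smul_eq_mul]
    split_ifs
    · push_cast
      ring
    · ring
  rw [e1, e2]
  refine key.trans ?_
  -- bounds
  have b1 : ∑ n ∈ Icc 1 (N * N), |TMX1.sq N (ap ε T) n / Real.sqrt n| ≤
      (2 * T ^ (1 / 8 : ℝ) * (1 + Real.log T)) ^ 2 := by
    refine (sq_sum N (ap ε T)).trans ?_
    refine pow_le_pow_left₀ ?_ (ap_sum hε hε1 hT1) 2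
    exact sum_nonneg fun _ _ => div_nonneg (abs_nonneg _) (Real.sqrt_nonneg _)
  have b1' : (2 * T ^ (1 / 8 : ℝ) * (1 + Real.log T)) ^ 2 ≤ T ^ (3 / 8 : ℝ) := by
    have : (T ^ (1 / 8 : ℝ)) ^ 2 = T ^ (1 / 4 : ℝ) := by
      rw [← Real.rpow_natCast (T ^ (1 / 8 : ℝ)) 2, ← Real.rpow_mul hT0.le]
      norm_num
    calc (2 * T ^ (1 / 8 : ℝ) * (1 + Real.log T)) ^ 2 =
          (T ^ (1 / 8 : ℝ)) ^ 2 * (4 * (1 + Real.log T) ^ 2) := by ring
      _ ≤ T ^ (1 / 4 : ℝ) * T ^ (1 / 8 : ℝ) := by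
          rw [this]
          exact mul_le_mul_of_nonneg_left hpl2 (by positivity)
      _ = T ^ (3 / 8 : ℝ) := by rw [← Real.rpow_add hT0]; norm_num
  have hS : ∑ b ∈ SS' ε T, cB ε T b ^ 2 ≤ T ^ (1 / 8 : ℝ) := by
    rw [div_lt_iff₀ (by positivity)] at hsm
    refine hsm.le.trans (le_trans ?_ hpl)
    have h3 : Real.log T ^ 36 ≤ (1 + Real.log T) ^ 36 :=
      pow_le_pow_left₀ hL.le (by linarith) 36
    calc (aF 6 * JBn ε + 1) * Real.log T ^ 36 ≤ (|aF 6 * JBn ε| + 1) * Real.log T ^ 36 :=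
          mul_le_mul_of_nonneg_right (by linarith [le_abs_self (aF 6 * JBn ε)]) (by positivity)
      _ ≤ _ := mul_le_mul_of_nonneg_left h3 (by positivity)
  have b2 : (∑ b ∈ SS' ε T, |cB ε T b|) ^ 2 ≤ (T ^ (5 / 8 : ℝ)) ^ 2 := by
    have h1 := sq_sum_le_card_mul_sum_sq (s := SS' ε T) (f := fun b => |cB ε T b|)
    simp only [sq_abs] at h1
    have h2 := Pool.Agent.H223R2.TMX3.card_le (ε := ε) hT1 hε
    calc (∑ b ∈ SS' ε T, |cB ε T b|) ^ 2 ≤ ((SS' ε T).card : ℝ) * ∑ b ∈ SS' ε T, cB ε T b ^ 2 := h1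
      _ ≤ T * T ^ (1 / 8 : ℝ) := mul_le_mul h2 hS (sum_nonneg fun _ _ => sq_nonneg _) hT0.le
      _ ≤ (T ^ (5 / 8 : ℝ)) ^ 2 := by
          have e3 : (T ^ (5 / 8 : ℝ)) ^ 2 = T ^ (5 / 4 : ℝ) := by
            rw [← Real.rpow_natCast (T ^ (5 / 8 : ℝ)) 2, ← Real.rpow_mul hT0.le]
            norm_num
          have e4 : T * T ^ (1 / 8 : ℝ) = T ^ (9 / 8 : ℝ) := by
            nth_rewrite 1 [← Real.rpow_one T]
            rw [← Real.rpow_add hT0]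
            norm_num
          rw [e3, e4]
          exact Real.rpow_le_rpow_of_exponent_le hT1.le (by norm_num)
  have b2' : ∑ b ∈ SS' ε T, |cB ε T b| ≤ T ^ (5 / 8 : ℝ) :=
    abs_le_of_sq_le_sq' b2 (by positivity) |>.2
  have hTi : 0 < T ^ (-1 : ℝ) := Real.rpow_pos_of_pos hT0 _
  calc (∑ b ∈ SS' ε T, |cB ε T b|) * ((∑ n ∈ Icc 1 (N * N), |TMX1.sq N (ap ε T) n / Real.sqrt n|) *
        T ^ (-1 : ℝ)) ≤ T ^ (5 / 8 : ℝ) * (T ^ (3 / 8 : ℝ) * T ^ (-1 : ℝ)) := by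
        refine mul_le_mul b2' (mul_le_mul_of_nonneg_right (b1.trans b1') hTi.le) ?_ (by positivity)
        exact mul_nonneg (sum_nonneg fun _ _ => abs_nonneg _) hTi.le
    _ = 1 := by
        rw [← Real.rpow_add hT0, ← Real.rpow_add hT0]
        norm_num

end

end Pool.Agent.H223R2.TMX2
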