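import Pool.Agent.H284R2.EM_MH
import Pool.Agent.H223.TM.Defs

set_option autoImplicit false

/-!
Twelfth moment lower bound, X4: Hölder's inequality with exponents 6, 3, 2.
-/

namespace Pool.Agent.H223R2.TMX4

open Finset Filter Topology MeasureTheory Complex
open Pool.Agent.H306R2 Pool.Agent.H306R2.SM Pool.Agent.H223.EM Pool.Agent.H223.TM
open Pool.Agent.H284R2.EM

noncomputable section

/-- X4. Hölder -/
theorem holder12 (ε : ℝ) (T : ℝ) (hT : 1 < T) (k : ℕ) (hk : 1 ≤ k) :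
    ‖∫ t in Set.Ioi (0 : ℝ), (om k (k / T) t : ℂ) * riemannZeta (cl t) ^ 2 * Pp ε T t ^ 2 *
        Bd ε T t‖ ^ 6 ≤
      M12 k T * (∫ t in Set.Ioi (0 : ℝ), om k (k / T) t * ‖Pp ε T t‖ ^ 6) ^ 2 *
        (∫ t in Set.Ioi (0 : ℝ), om k (k / T) t * ‖Bd ε T t‖ ^ 2) ^ 3 := by
  have hδ : 0 < (k : ℝ) / T := by
    have : (0:ℝ) < k := by exact_mod_cast hk
    positivity
  have pP : PG (fun t => Pp ε T t) := by
    unfold Pp
    exact PG.sum _ fun n _ => (PG.const _).mul (PG.ef _)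
  have pC : ∀ (S : Finset (ℕ × ℕ)) (c : ℕ × ℕ → ℝ), PG (fun t => Cp S c t) := by
    intro S c
    unfold Cp
    exact PG.sum _ fun n _ => (PG.const _).mul (PG.ef _)
  have pB : PG (fun t => Bd ε T t) := by
    unfold Bd
    exact (PG.X.mul (pC _ _)).add ((PG.X.pow 2).mul (pC _ _))
  have pzA : PG (fun t => riemannZeta (cl t) ^ 2 * Pp ε T t ^ 2) := (PG.zeta.pow 2).mul (pP.pow 2)
  set δ := (k : ℝ) / T with hδd
  have h1 : ‖∫ t in Set.Ioi (0 : ℝ), (om k δ t : ℂ) * riemannZeta (cl t) ^ 2 * Pp ε T t ^ 2 *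
      Bd ε T t‖ ≤
      ∫ t in Set.Ioi (0 : ℝ), om k δ t * (‖riemannZeta (cl t) ^ 2 * Pp ε T t ^ 2‖ * ‖Bd ε T t‖) := by
    refine (norm_integral_le_integral_norm _).trans (le_of_eq ?_)
    refine setIntegral_congr_fun measurableSet_Ioi fun t ht => ?_
    simp only [norm_mul, Complex.norm_real, Real.norm_of_nonneg (om_nonneg k hδ (le_of_lt ht))]
    ring
  have h2 := cs k hδ pzA pB
  have h3 := cs k hδ ((PG.zeta.pow 4).mul pP) (pP.pow 3)
  have h4 := cs k hδ (PG.zeta.pow 6) ((PG.zeta.pow 2).mul (pP.pow 2))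
  set K := ∫ t in Set.Ioi (0 : ℝ), om k δ t * (‖riemannZeta (cl t)‖ ^ 4 * ‖Pp ε T t‖ ^ 4) with hK
  set R := ∫ t in Set.Ioi (0 : ℝ), om k δ t * (‖riemannZeta (cl t)‖ ^ 8 * ‖Pp ε T t‖ ^ 2) with hR
  set P6 := ∫ t in Set.Ioi (0 : ℝ), om k δ t * ‖Pp ε T t‖ ^ 6 with hP6
  have e1 : ∫ t in Set.Ioi (0 : ℝ), om k δ t * ‖riemannZeta (cl t) ^ 2 * Pp ε T t ^ 2‖ ^ 2 = K := by
    refine setIntegral_congr_fun measurableSet_Ioi fun t _ => ?_
    simp only [norm_mul, norm_pow]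
    ring
  have e2 : ∫ t in Set.Ioi (0 : ℝ), om k δ t * (‖riemannZeta (cl t) ^ 4 * Pp ε T t‖ *
      ‖Pp ε T t ^ 3‖) = K := by
    refine setIntegral_congr_fun measurableSet_Ioi fun t _ => ?_
    simp only [norm_mul, norm_pow]
    ring
  have e3 : ∫ t in Set.Ioi (0 : ℝ), om k δ t * ‖riemannZeta (cl t) ^ 4 * Pp ε T t‖ ^ 2 = R := by
    refine setIntegral_congr_fun measurableSet_Ioi fun t _ => ?_
    simp only [norm_mul, norm_pow]
    ring
  have e4 : ∫ t in Set.Ioi (0 : ℝ), om k δ t * ‖Pp ε T t ^ 3‖ ^ 2 = P6 := by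
    refine setIntegral_congr_fun measurableSet_Ioi fun t _ => ?_
    simp only [norm_pow]
    ring
  have e5 : ∫ t in Set.Ioi (0 : ℝ), om k δ t * (‖riemannZeta (cl t) ^ 6‖ *
      ‖riemannZeta (cl t) ^ 2 * Pp ε T t ^ 2‖) = R := by
    refine setIntegral_congr_fun measurableSet_Ioi fun t _ => ?_
    simp only [norm_mul, norm_pow]
    ring
  have e6 : ∫ t in Set.Ioi (0 : ℝ), om k δ t * ‖riemannZeta (cl t) ^ 6‖ ^ 2 = M12 k T := by
    unfold M12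
    refine setIntegral_congr_fun measurableSet_Ioi fun t _ => ?_
    simp only [norm_pow]
    ring
  rw [e1] at h2
  rw [e2, e3, e4] at h3
  rw [e5, e6, e1] at h4
  set I := ‖∫ t in Set.Ioi (0 : ℝ), (om k δ t : ℂ) * riemannZeta (cl t) ^ 2 * Pp ε T t ^ 2 *
      Bd ε T t‖ with hI
  set J := ∫ t in Set.Ioi (0 : ℝ), om k δ t * (‖riemannZeta (cl t) ^ 2 * Pp ε T t ^ 2‖ *
      ‖Bd ε T t‖) with hJ
  set B2 := ∫ t in Set.Ioi (0 : ℝ), om k δ t * ‖Bd ε T t‖ ^ 2 with hB2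
  have hI0 : 0 ≤ I := norm_nonneg _
  have hJ0 : 0 ≤ J := hI0.trans h1
  have nn : ∀ f : ℝ → ℝ, (∀ t, 0 ≤ f t) → 0 ≤ ∫ t in Set.Ioi (0 : ℝ), om k δ t * f t := by
    intro f hf
    refine setIntegral_nonneg measurableSet_Ioi fun t ht => ?_
    exact mul_nonneg (om_nonneg k hδ (le_of_lt ht)) (hf t)
  have hK0 : 0 ≤ K := nn _ fun t => by positivity
  have hR0 : 0 ≤ R := nn _ fun t => by positivity
  have hP0 : 0 ≤ P6 := nn _ fun t => by positivity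
  have hB0 : 0 ≤ B2 := nn _ fun t => by positivity
  have hM0 : 0 ≤ M12 k T := nn _ fun t => by positivity
  -- K^3 ≤ M12 P6^2
  have hK3 : K ^ 3 ≤ M12 k T * P6 ^ 2 := by
    rcases hK0.eq_or_lt with h | h
    · rw [← h]
      simp only [ne_eq, OfNat.ofNat_ne_zero, not_false_eq_true, zero_pow]
      positivity
    · have : K * K ^ 3 ≤ K * (M12 k T * P6 ^ 2) := by
        calc K * K ^ 3 = (K ^ 2) ^ 2 := by ring
          _ ≤ (R * P6) ^ 2 := pow_le_pow_left₀ (sq_nonneg _) h3 2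
          _ = R ^ 2 * P6 ^ 2 := by ring
          _ ≤ (M12 k T * K) * P6 ^ 2 := mul_le_mul_of_nonneg_right h4 (sq_nonneg _)
          _ = K * (M12 k T * P6 ^ 2) := by ring
      exact le_of_mul_le_mul_left this h
  calc I ^ 6 ≤ J ^ 6 := pow_le_pow_left₀ hI0 h1 6
    _ = (J ^ 2) ^ 3 := by ring
    _ ≤ (K * B2) ^ 3 := pow_le_pow_left₀ (sq_nonneg _) h2 3
    _ = K ^ 3 * B2 ^ 3 := by ring
    _ ≤ (M12 k T * P6 ^ 2) * B2 ^ 3 := mul_le_mul_of_nonneg_right hK3 (pow_nonneg hB0 3)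

end

end Pool.Agent.H223R2.TMX4
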